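import Pool.Agent.Helper35_FKP.Kit

/-!
# FKP: symmetry of a Schubert polynomial in an increasing initial segment (row ASC)
-/

set_option autoImplicit false

open Finset Equiv

noncomputable section

namespace Pool.Agent.FKP.H3

theorem adj {N : ℕ} {S : Perm (Fin N) → MvPolynomial (Fin N) ℤ} (hS : IsSch N S)
    (w : Perm (Fin N)) (i j : Fin N) (hij : (i : ℕ) + 1 = j) (h : w i < w j) :
    MvPolynomial.rename (swap i j) (S w) = S w := by
  have hne : i ≠ j := by
    intro h0
    rw [h0] at hij
    omega
  have h1 := hS.2 (w * swap i j) i j hij (by simpa [Perm.mul_apply] using h)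
  rw [mul_assoc, swap_mul_self, mul_one] at h1
  have h2 := congrArg (MvPolynomial.rename (swap i j)) h1
  rw [map_mul, map_sub, map_sub, MvPolynomial.rename_X, MvPolynomial.rename_X, swap_apply_left,
    swap_apply_right, H35.swap_swap] at h2
  apply mul_left_cancel₀ (H35.X_sub_ne hne)
  linear_combination -h2 - h1

theorem symF_of_adj {N : ℕ} (r : ℕ) (f : MvPolynomial (Fin N) ℤ)
    (h : ∀ i j : Fin N, (i : ℕ) + 1 = j → (j : ℕ) < r → MvPolynomial.rename (swap i j) f = f) :
    SymF r f := by
  have key : ∀ (d : ℕ) (a b : Fin N), (a : ℕ) + d + 1 = b → (b : ℕ) < r →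
      MvPolynomial.rename (swap a b) f = f := by
    intro d
    induction d with
    | zero =>
      intro a b hab hb
      exact h a b (by omega) hb
    | succ d ih =>
      intro a b hab hb
      have hlt : (b : ℕ) - 1 < N := by omega
      set c : Fin N := ⟨(b : ℕ) - 1, hlt⟩ with hc
      have hcv : (c : ℕ) = (b : ℕ) - 1 := rfl
      have h1 := ih a c (by omega) (by omega)
      have h2 := h c b (by omega) hb
      have hac : a ≠ c := fun h0 => by
        have := congrArg Fin.val h0
        omega
      have hab' : a ≠ b := fun h0 => by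
        have := congrArg Fin.val h0
        omega
      have h3 := swap_mul_swap_mul_swap (x := a) (y := c) (z := b) hac hab'
      have h4 : (⇑(swap a b) : Fin N → Fin N) = ⇑(swap c b) ∘ ⇑(swap a c) ∘ ⇑(swap c b) := by
        rw [swap_comm a b, ← h3]
        rfl
      rw [h4, ← Function.comp_assoc, ← MvPolynomial.rename_rename, h2,
        ← MvPolynomial.rename_rename, h1, h2]
  intro a b ha hb
  rcases lt_trichotomy (a : ℕ) (b : ℕ) with hab | hab | hab
  · exact key ((b : ℕ) - a - 1) a b (by omega) hb
  · have : a = b := Fin.ext hab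
    subst this
    simp
  · rw [swap_comm]
    exact key ((a : ℕ) - b - 1) b a (by omega) ha

/-- Row ASC. -/
theorem asc : AscStmt := by
  intro N S hS r w hw
  apply symF_of_adj
  intro i j hij hj
  exact adj hS w i j hij (hw i j (by rw [Fin.lt_def]; omega) hj)

end Pool.Agent.FKP.H3
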