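import Pool.Agent.FKP.StmtsS

/-!
# FKP: the class of the rectangle times the divisor is zero (row RCT)
-/

set_option autoImplicit false

open Finset Equiv

noncomputable section

namespace Pool.Agent.FKP.H3

section gen

variable {R : Type*} [CommRing R] {ι : Type*}

/-- the generating polynomial of the elementary symmetric functions -/
def gp (U : Finset ι) (x : ι → R) : Polynomial R :=
  ∏ i ∈ U, (1 + Polynomial.C (x i) * Polynomial.X)

theorem gp_coeff (U : Finset ι) (x : ι → R) (k : ℕ) :
    (gp U x).coeff k = ∑ t ∈ powersetCard k U, ∏ i ∈ t, x i := by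
  classical
  unfold gp
  rw [Finset.prod_one_add, Polynomial.finsetSum_coeff]
  have h : ∀ t ∈ U.powerset, (∏ i ∈ t, (Polynomial.C (x i) * Polynomial.X)).coeff k =
      if t.card = k then ∏ i ∈ t, x i else 0 := by
    intro t _
    rw [prod_mul_distrib, prod_const, ← map_prod, Polynomial.coeff_C_mul, Polynomial.coeff_X_pow]
    by_cases ht : t.card = k
    · simp [ht]
    · rw [if_neg ht, if_neg (fun h => ht h.symm), mul_zero]
  rw [sum_congr rfl h, ← sum_filter]
  refine sum_congr ?_ fun _ _ => rfl
  ext t
  simp [mem_powersetCard, and_comm]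

/-- The algebra: `a b = 1` in `R[T]` with `deg a ≤ s`, `deg b ≤ m`. -/
theorem core (s m : ℕ) (a b : Polynomial R) (hab : a * b = 1)
    (ha : ∀ i, s < i → a.coeff i = 0) (hb : ∀ j, m < j → b.coeff j = 0)
    (ha0 : a.coeff 0 = 1) (hb0 : b.coeff 0 = 1) :
    (a.coeff s) ^ m * a.coeff 1 = 0 := by
  have hl : ∀ l, 1 ≤ l → ∑ p ∈ antidiagonal l, a.coeff p.1 * b.coeff p.2 = 0 := by
    intro l hl
    rw [← Polynomial.coeff_mul, hab, Polynomial.coeff_one, if_neg (by omega)]
  have key : ∀ k, k < m → (a.coeff s) ^ (k + 1) * b.coeff (m - k) = 0 := by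
    intro k
    induction k using Nat.strong_induction_on with
    | _ k ih =>
      intro hk
      have h1 := hl (s + (m - k)) (by omega)
      have h2 : ∑ p ∈ antidiagonal (s + (m - k)),
          (a.coeff s) ^ k * (a.coeff p.1 * b.coeff p.2) = 0 := by
        rw [← mul_sum, h1, mul_zero]
      rw [sum_eq_single (s, m - k)] at h2
      · rw [pow_succ, mul_assoc]
        exact h2
      · rintro ⟨i, j⟩ hp hne
        rw [HasAntidiagonal.mem_antidiagonal] at hp
        simp only at hp ⊢
        rcases lt_trichotomy i s with h | h | h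
        · by_cases hj : m < j
          · rw [hb j hj, mul_zero, mul_zero]
          · have h3 := ih (m - j) (by omega) (by omega)
            rw [show m - (m - j) = j by omega] at h3
            have h4 : (a.coeff s) ^ k = (a.coeff s) ^ (k - (m - j + 1)) *
                (a.coeff s) ^ (m - j + 1) := by
              rw [← pow_add]
              congr 1
              omega
            calc (a.coeff s) ^ k * (a.coeff i * b.coeff j)
                = (a.coeff s) ^ (k - (m - j + 1)) * a.coeff i *
                  ((a.coeff s) ^ (m - j + 1) * b.coeff j) := by rw [h4]; ring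
              _ = 0 := by rw [h3, mul_zero]
        · exfalso
          apply hne
          subst h
          rw [Prod.mk.injEq]
          exact ⟨rfl, by omega⟩
        · rw [ha i h, zero_mul, mul_zero]
      · intro h
        exact absurd (by simp) h
  have h1 := hl 1 le_rfl
  have h2 : a.coeff 1 + b.coeff 1 = 0 := by
    have h3 : antidiagonal 1 = {((0 : ℕ), 1), (1, 0)} := rfl
    rw [h3, sum_pair (by simp)] at h1
    simp only [ha0, hb0, one_mul, mul_one] at h1
    rw [add_comm]
    exact h1
  have h3 : (a.coeff s) ^ m * b.coeff 1 = 0 := by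
    rcases Nat.eq_zero_or_pos m with hm | hm
    · subst hm
      rw [hb 1 one_pos, mul_zero]
    · have h4 := key (m - 1) (by omega)
      rw [show m - 1 + 1 = m by omega, show m - (m - 1) = 1 by omega] at h4
      exact h4
  have h4 : a.coeff 1 = - b.coeff 1 := eq_neg_of_add_eq_zero_left h2
  rw [h4, mul_neg, h3, neg_zero]

end gen

theorem posn_symm_inl {m s : ℕ} (i : Fin s) : (posn m s).symm (Sum.inl i) = lo i := by
  ext
  simp [posn, lo]

theorem posn_symm_inr {m s : ℕ} (a : Fin m) : (posn m s).symm (Sum.inr a) = hi a := by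
  ext
  simp [posn, hi, add_comm]

theorem ek_full (N k : ℕ) : ek N N k = ∑ t ∈ powersetCard k (univ : Finset (Fin N)),
    ∏ i ∈ t, (MvPolynomial.X i : MvPolynomial (Fin N) ℤ) := by
  unfold ek
  rw [filter_true_of_mem fun i _ => i.isLt]

/-- Row RCT. -/
theorem rct : RctStmt := by
  intro m s
  let q := Ideal.Quotient.mk (Isy (m + s))
  let x : Fin (m + s) → MvPolynomial (Fin (m + s)) ℤ ⧸ Isy (m + s) :=
    fun i => q (MvPolynomial.X i)
  have hfull : gp univ x = 1 := by
    ext k
    rw [gp_coeff, Polynomial.coeff_one]
    by_cases hk : k = 0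
    · subst hk
      simp
    · rw [if_neg hk]
      have h1 : q (ek (m + s) (m + s) k) = 0 :=
        Ideal.Quotient.eq_zero_iff_mem.2 (Ideal.subset_span ⟨k, by omega, rfl⟩)
      rw [ek_full, map_sum] at h1
      rw [← h1]
      exact sum_congr rfl fun t _ => (map_prod q _ _).symm
  have hsplit : gp univ x = gp (univ : Finset (Fin s)) (fun i => x (lo i)) *
      gp (univ : Finset (Fin m)) (fun a => x (hi a)) := by
    unfold gp
    rw [← Equiv.prod_comp (posn m s).symm, Fintype.prod_sum_type]
    simp only [posn_symm_inl, posn_symm_inr]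
  have h := core s m (gp (univ : Finset (Fin s)) (fun i => x (lo i)))
    (gp (univ : Finset (Fin m)) (fun a => x (hi a))) (by rw [← hsplit, hfull])
    (fun i hi' => by
      rw [gp_coeff, powersetCard_eq_empty.2 (by simpa using hi'), sum_empty])
    (fun i hi' => by
      rw [gp_coeff, powersetCard_eq_empty.2 (by simpa using hi'), sum_empty])
    (by rw [gp_coeff]; simp) (by rw [gp_coeff]; simp)
  have hs : (gp (univ : Finset (Fin s)) (fun i => x (lo i))).coeff s = ∏ i : Fin s, x (lo i) := by
    rw [gp_coeff]
    have h1 : powersetCard s (univ : Finset (Fin s)) = {univ} := by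
      have h2 := powersetCard_self (univ : Finset (Fin s))
      rwa [card_univ, Fintype.card_fin] at h2
    rw [h1, sum_singleton]
  have h1 : (gp (univ : Finset (Fin s)) (fun i => x (lo i))).coeff 1 = ∑ i : Fin s, x (lo i) := by
    rw [gp_coeff, powersetCard_one, sum_map]
    simp
  rw [hs, h1] at h
  rw [← Ideal.Quotient.eq_zero_iff_mem, map_mul, map_pow, map_prod, map_sum]
  exact h

end Pool.Agent.FKP.H3
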